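import Pool.Agent.W956.SMP.Count

set_option autoImplicit false

/-!
# MP_c04246_lc: symmetric refutations of first-order principles with `MOD_m` gates are exponentially
long, for every modulus `m`

Definitions (beginning of `Pool/Agent/H694R2/SymMod.lean`):

* `Circuit m V 𝒢`: acyclic circuits over the variables `V` with gate set `𝒢`: negation gates,
  disjunction gates and `MOD_(m,a)` gates of unbounded fan-in, any depth, with sharing;
  `mult g c` is the number of times the node `c` is an input of `g`;
* `C.Symmetric A`: the circuit is invariant under the permutations of `A`, which act on the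
  variables and on the gates;
* `Step`: one inference of the sequent calculus LK (unbounded `∨`; clauses used as rules) with the
  rules for `MOD_m` gates: exactly one value, empty sum, adding one input, replacing simultaneously
  all inputs by equivalent ones (unboundedly many premises), and sums of sums;
* `Der C 𝒜 b Γ`: the sequent `Γ` has a (dag-like) derivation from the clauses `𝒜` by sequents of
  at most `b` nodes of `C`.

Definitions (beginning of `Pool/Agent/H694R2/SymGap.lean`):

* `Atom ar A`: the atoms `R (a_1, …, a_r)` over `A`, for relation symbols `R` with arities `ar`;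
* `Schema ar`: first-order axioms: for all distinct `x_1, …, x_m` one of the literals `fixed` holds,
  or there are distinct `y_1, …, y_e`, different from the `x_i`, such that one of the literals
  `wide` holds; `clauses Φ A`: their propositional translation over the set `A` of points (one
  clause for every choice of the `x_i`); `Models I Φ`: the structure in which exactly the atoms in
  `I` hold satisfies the axioms `Φ`.

`Perm A` acts on the atoms over `A ⊕ B` by renaming the points in `A` (`Pool/Agent/W956/SMP/Fo.lean`).
`phpAxioms D` (`Pool/Agent/W956/SMP/Php.lean`): the functional pigeonhole principle with holes `H` as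
a set of such axioms, in the unary relation symbols `P_j`, `j ∈ H`; all holes outside `D` have to be
used. `countClauses A q` (`Pool/Agent/H694R2/SymCount.lean`): the clauses of `Count_q` (a partition
of `A` into sets of `q` elements), in the variables `x_e`, `e` a `q`-element subset of `A`.
-/

namespace Pool.Agent.Results.MP_c04246_lc.SymmetricModM

open Equiv Pool.Agent.H694R2.SymMod Pool.Agent.W956.SMP
open Pool.Agent.H694R2.SymGap (Atom Schema clauses Models)
open Pool.Agent.H694R2.SymCount (countClauses)

/-- The number of gates of every circuit with `MOD_m` gates which is invariant under the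
permutations of `A` and carries a refutation of the clauses `𝒜` with sequents of at most `b` nodes
has the property `P`. -/
def AllRefutations (m b : ℕ) [NeZero m] (A : Type) {V : Type} [Fintype V] [DecidableEq V]
    [MulAction (Perm A) V] (𝒜 : Set (Set (V × Bool))) (P : ℕ → Prop) : Prop :=
  ∀ (𝒢 : Type) [Fintype 𝒢] [DecidableEq 𝒢] [MulAction (Perm A) 𝒢] (C : Circuit m V 𝒢),
    C.Symmetric A → Der C 𝒜 b ∅ → P (Fintype.card 𝒢)

/-- Let `m ≥ 1` and `b ≥ 2`.

(1) Let `Φ` be a set of first-order axioms which has a model with `|A| + |B| - x` points. If, for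
every prime `q` dividing `m`, some power `q ^ e ≥ k` is such that `m * q ^ e` divides `x`, if `k` is
larger than the arities and the numbers of universally quantified variables, and if
`x + (b + 3) k ≤ |A|`, then a circuit with `MOD_m` gates that is invariant under the permutations
of `A` and carries a refutation of `Φ` over the points `A ⊕ B` has at least
`((|A| choose k) / 4)^(1/3)` gates.

(2) Such circuits for the functional pigeonhole principle with pigeons `A ⊕ B` and `n` holes
(`n < |A| + |B|`, `2 |B| ≤ n`) have at least `exp (c n^(1/ω))` gates, where `ω` is the number of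
primes dividing `m`, even if half of the holes have to be used.

(3) Such circuits for `Count_q` on the set `A` with `n` points have at least `exp (c n^(1/ω))` gates
if `q = d q'` with `q'` prime to `m` and `d` dividing `n`. -/
theorem result (m b : ℕ) [NeZero m] (hb : 2 ≤ b) :
    (∀ (R : Type) [Fintype R] [DecidableEq R] (ar : R → ℕ) (Φ : Set (Schema ar))
      (A B M : Type) [Fintype A] [DecidableEq A] [Fintype B] [DecidableEq B] [Fintype M]
      (I : Atom ar M → Prop) (k x : ℕ),
      Models I Φ → Fintype.card A + Fintype.card B = Fintype.card M + x →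
      (∀ q : ℕ, q.Prime → q ∣ m → ∃ e, k ≤ q ^ e ∧ m * q ^ e ∣ x) →
      2 ≤ k → (∀ r, ar r < k) → (∀ θ ∈ Φ, θ.m < k) → x + (b + 3) * k ≤ Fintype.card A →
      AllRefutations m b A (clauses Φ (A ⊕ B))
        (fun G => (Fintype.card A).choose k ≤ 4 * G ^ 3)) ∧
    (2 ≤ m → ∃ (c : ℝ) (N : ℕ), 0 < c ∧ ∀ (A B H : Type) [Fintype A] [DecidableEq A] [Fintype B]
      [DecidableEq B] [Fintype H] [DecidableEq H] (D : Finset H),
      N ≤ Fintype.card H → Fintype.card H < Fintype.card A + Fintype.card B →
      2 * Fintype.card B ≤ Fintype.card H → Fintype.card H ≤ 2 * D.card →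
      AllRefutations m b A (clauses (phpAxioms D) (A ⊕ B))
        (fun G => Real.exp (c * (Fintype.card H : ℝ) ^ (1 / (m.primeFactors.card : ℝ))) ≤ G)) ∧
    (2 ≤ m → ∀ q q' d : ℕ, 1 ≤ q → q = d * q' → q'.Coprime m →
      ∃ (c : ℝ) (N : ℕ), 0 < c ∧ ∀ (A : Type) [Fintype A] [DecidableEq A]
      [Fintype (Set.powersetCard A q)] [DecidableEq (Set.powersetCard A q)],
      N ≤ Fintype.card A → d ∣ Fintype.card A →
      AllRefutations m b A (countClauses A q)
        (fun G => Real.exp (c * (Fintype.card A : ℝ) ^ (1 / (m.primeFactors.card : ℝ))) ≤ G)) := by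
  refine ⟨?_, ?_, ?_⟩
  · intro R _ _ ar Φ A B M _ _ _ _ _ I k x hI hx hdiv hk har hΦ hroom 𝒢 _ _ _ C hC hD
    exact fo_lower_bound hb hk I Φ hI har hΦ hx hroom hdiv C hC hD
  · intro hm
    obtain ⟨c, N, hc, h⟩ := php_asym m b hm hb
    refine ⟨c, N, hc, ?_⟩
    intro A B H _ _ _ _ _ _ D h1 h2 h3 h4 𝒢 _ _ _ C hC hD
    exact h A B H D h1 h2 h3 h4 𝒢 C hC hD
  · intro hm q q' d hq hqd hco
    obtain ⟨c, N, hc, h⟩ := count_asym m b q q' d hm hb hq hqd hco
    refine ⟨c, N, hc, ?_⟩
    intro A _ _ _ _ h1 h2 𝒢 _ _ _ C hC hD
    exact h A h1 h2 𝒢 C hC hD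

end Pool.Agent.Results.MP_c04246_lc.SymmetricModM
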